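import Pool.Agent.H48.HMS.Stm

/-!
# HMS, module QOP: the basic operations on rationals are polynomial time
-/

set_option autoImplicit false

namespace Pool.HMS

open TMLib

theorem qop_thm (h1 : S_ZADD) (h2 : S_ZMUL) (h3 : S_ZDIV) (h4 : S_QMK) : S_QOP := by
  have zadd : ∀ {α : Type} [Enc α] {f g : α → ℤ}, PTime f → PTime g →
      PTime (fun x => f x + g x) :=
    fun hf hg => PTime.comp2 (g := fun a b : ℤ => a + b) h1 hf hg
  have zmul : ∀ {α : Type} [Enc α] {f g : α → ℤ}, PTime f → PTime g →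
      PTime (fun x => f x * g x) :=
    fun hf hg => PTime.comp2 (g := fun a b : ℤ => a * b) h2 hf hg
  have zdiv : ∀ {α : Type} [Enc α] {f g : α → ℤ}, PTime f → PTime g →
      PTime (fun x => f x / g x) :=
    fun hf hg => PTime.comp2 (g := fun a b : ℤ => a / b) h3 hf hg
  have qmk : ∀ {α : Type} [Enc α] {f g : α → ℤ}, PTime f → PTime g →
      PTime (fun x => (f x : ℚ) / (g x : ℚ)) :=
    fun hf hg => PTime.comp2 (g := fun a b : ℤ => (a : ℚ) / (b : ℚ)) h4 hf hg
  have zneg : ∀ {α : Type} [Enc α] {f : α → ℤ}, PTime f → PTime (fun x => -(f x)) :=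
    fun hf => (zmul (PTime.const (-1)) hf).congr fun x => by ring
  have hden : ∀ q : ℚ, (q.den : ℚ) ≠ 0 := fun q => by exact_mod_cast q.den_ne_zero
  have hq : ∀ q : ℚ, q = (q.num : ℚ) / (q.den : ℚ) := fun q => (Rat.num_div_den q).symm
  have P1 : PTime (fun p : ℚ × ℚ => p.1) := PTime.id.fst
  have P2 : PTime (fun p : ℚ × ℚ => p.2) := PTime.id.snd
  have n1 : PTime (fun p : ℚ × ℚ => p.1.num) := ptime_qnum P1
  have n2 : PTime (fun p : ℚ × ℚ => p.2.num) := ptime_qnum P2
  have d1 : PTime (fun p : ℚ × ℚ => (p.1.den : ℤ)) := ptime_qden P1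
  have d2 : PTime (fun p : ℚ × ℚ => (p.2.den : ℤ)) := ptime_qden P2
  have n0 : PTime (fun p : ℚ => p.num) := ptime_qnum PTime.id
  have d0 : PTime (fun p : ℚ => (p.den : ℤ)) := ptime_qden PTime.id
  constructor
  · refine (qmk (zadd (zmul n1 d2) (zmul n2 d1)) (zmul d1 d2)).congr fun p => ?_
    conv_lhs => rw [hq p.1, hq p.2]
    have e1 := hden p.1
    have e2 := hden p.2
    push_cast
    field_simp
  · refine (qmk (zmul n1 n2) (zmul d1 d2)).congr fun p => ?_
    conv_lhs => rw [hq p.1, hq p.2]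
    have e1 := hden p.1
    have e2 := hden p.2
    push_cast
    field_simp
  · refine (qmk (zneg n0) d0).congr fun p => ?_
    conv_lhs => rw [hq p]
    push_cast
    ring
  · refine (qmk d0 n0).congr fun p => ?_
    conv_lhs => rw [hq p]
    push_cast
    rw [inv_div]
  · have h5 : PTime (fun p : ℚ × ℚ =>
        !(decide (p.2.num * (p.1.den : ℤ) + -(p.1.num * (p.2.den : ℤ)) < 0))) :=
      (ptime_isneg (zadd (zmul n2 d1) (zneg (zmul n1 d2)))).not
    refine h5.congr fun p => ?_
    rw [Bool.eq_iff_iff]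
    simp only [Bool.not_eq_true', decide_eq_true_eq, decide_eq_false_iff_not, not_lt]
    rw [Rat.le_iff]
    constructor
    · intro h; linarith
    · intro h; linarith
  · refine (zdiv n0 d0).congr fun p => ?_
    conv_lhs => rw [hq p]
    exact Rat.floor_intCast_div_natCast _ _
  · refine (qmk PTime.id (PTime.const (1 : ℤ))).congr fun p => ?_
    simp

end Pool.HMS
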