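import Pool.Agent.H52.HMS.LBase

/-!
# HMS, module LOPG: effect of a size reduction on the Gram-Schmidt data
-/

set_option autoImplicit false

namespace Pool.HMS

open TMLib Finset

theorem lopg_thm : S_LOPG := by
  intro D m B s L r i j c hL hi hji
  have hj : j < D := by omega
  -- the new basis
  obtain ⟨e, he⟩ : ∃ e : ℕ → ℚ, e = fun a => if a = i then c else 0 := ⟨_, rfl⟩
  have hbas : ∀ a < D, ∀ k, bas D B (lop D i j c s).1 a k =
      bas D B s.1 a k - e a * bas D B s.1 j k := by
    intro a ha k
    unfold bas
    rw [Finset.mul_sum, ← Finset.sum_sub_distrib]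
    refine Finset.sum_congr rfl fun b hb => ?_
    rw [Finset.mem_range] at hb
    unfold lop
    rw [ent_tabM, if_pos ⟨ha, hb⟩, he]
    by_cases h : a = i
    · subst h
      simp only [if_true]
      ring
    · simp only [if_neg h]
      ring
  have hgr : ∀ a < D, ∀ b < D, gr D m B (lop D i j c s).1 a b =
      gr D m B s.1 a b - e a * gr D m B s.1 j b - e b * gr D m B s.1 a j +
        e a * e b * gr D m B s.1 j j := by
    intro a ha b hb
    unfold gr
    rw [Finset.mul_sum, Finset.mul_sum, Finset.mul_sum, ← Finset.sum_sub_distrib,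
      ← Finset.sum_sub_distrib, ← Finset.sum_add_distrib]
    refine Finset.sum_congr rfl fun k _ => ?_
    rw [hbas a ha, hbas b hb]
    ring
  have hL' : ∀ a l, (if a = i then L i l - c * L j l else L a l) = L a l - e a * L j l := by
    intro a l
    rw [he]
    by_cases h : a = i
    · subst h
      simp only [if_true]
    · simp only [if_neg h]
      ring
  refine ⟨?_, ?_, hL.pos, ?_⟩
  · intro a ha
    rw [hL', hL.one a ha, he]
    by_cases h : a = i
    · subst h
      rw [hL.tri j hj a ha hji]
      simp
    · simp only [if_neg h]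
      ring
  · intro a ha l hl hal
    rw [hL', hL.tri a ha l hl hal, he]
    by_cases h : a = i
    · subst h
      rw [hL.tri j hj l hl (by omega)]
      simp
    · simp only [if_neg h]
      ring
  · intro a ha b hb
    rw [hgr a ha b hb, hL.eq a ha b hb, hL.eq j hj b hb, hL.eq a ha j hj, hL.eq j hj j hj,
      Finset.mul_sum, Finset.mul_sum, Finset.mul_sum, ← Finset.sum_sub_distrib,
      ← Finset.sum_sub_distrib, ← Finset.sum_add_distrib]
    refine Finset.sum_congr rfl fun l _ => ?_
    rw [hL', hL']
    ring

end Pool.HMS
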