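import Pool.Agent.H52.HMS.LBase

/-!
# HMS, module LGRM: Gram matrices are integral, symmetric and positive definite
-/

set_option autoImplicit false

namespace Pool.HMS

open TMLib Finset

theorem lgrm_thm (hPDF : S_LPDF) : S_LGRM := by
  intro D m B X U W hV hU
  have hsymm : ∀ i j, gr D m B U i j = gr D m B U j i := by
    intro i j
    unfold gr
    exact Finset.sum_congr rfl fun k _ => mul_comm _ _
  have hbI : ∀ i k, IsI (bas D B U i k) := fun i k =>
    IsI.sum fun c _ => (hU.intU i c).mul (hV.int c k)
  have hint : ∀ i j, IsI (gr D m B U i j) := fun i j =>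
    IsI.sum fun k _ => (hbI i k).mul (hbI j k)
  have hm : 1 ≤ m := by
    by_contra hcon
    have hm0 : m = 0 := by omega
    have h1 := hV.ind (fun i => if i = 0 then 1 else 0) (by
      intro i hi
      have := hV.one
      simp only
      rw [if_neg (by omega)]) (by
      intro k hk
      omega) 0
    simp at h1
  have hpd : ∀ x : ℕ → ℚ, (∃ i < D, x i ≠ 0) →
      0 < ∑ i ∈ range D, ∑ j ∈ range D, x i * x j * gr D m B U i j := by
    intro x hx
    have hform : ∑ i ∈ range D, ∑ j ∈ range D, x i * x j * gr D m B U i j =
        ∑ k ∈ range m, (∑ i ∈ range D, x i * bas D B U i k) ^ 2 := by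
      have h1 : ∀ k, (∑ i ∈ range D, x i * bas D B U i k) ^ 2 =
          ∑ i ∈ range D, ∑ j ∈ range D, x i * x j * (bas D B U i k * bas D B U j k) := by
        intro k
        rw [sq, Finset.sum_mul_sum]
        exact Finset.sum_congr rfl fun i _ => Finset.sum_congr rfl fun j _ => by ring
      symm
      rw [Finset.sum_congr rfl fun k _ => h1 k, Finset.sum_comm]
      refine Finset.sum_congr rfl fun i _ => ?_
      rw [Finset.sum_comm]
      refine Finset.sum_congr rfl fun j _ => ?_
      unfold gr
      rw [Finset.mul_sum]
    rw [hform]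
    have hnn : 0 ≤ ∑ k ∈ range m, (∑ i ∈ range D, x i * bas D B U i k) ^ 2 :=
      Finset.sum_nonneg fun k _ => sq_nonneg _
    rcases hnn.lt_or_eq with h | h
    · exact h
    · exfalso
      have h2 : ∀ k ∈ range m, (∑ i ∈ range D, x i * bas D B U i k) ^ 2 = 0 :=
        (Finset.sum_eq_zero_iff_of_nonneg fun k _ => sq_nonneg _).1 h.symm
      have h3 : ∀ k < m, ∑ i ∈ range D, x i * bas D B U i k = 0 := fun k hk =>
        pow_eq_zero_iff (two_ne_zero) |>.1 (h2 k (Finset.mem_range.2 hk))
      obtain ⟨y, hy⟩ : ∃ y : ℕ → ℚ, y = fun c => if c < D then ∑ i ∈ range D, x i * ent U i c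
        else 0 := ⟨_, rfl⟩
      have hy0 : ∀ c, y c = 0 := by
        apply hV.ind y
        · intro c hc
          rw [hy]
          simp only
          rw [if_neg (by omega)]
        · intro k hk
          rw [← h3 k hk]
          unfold bas
          simp_rw [Finset.mul_sum]
          rw [Finset.sum_comm]
          refine Finset.sum_congr rfl fun c hc => ?_
          rw [hy]
          simp only
          rw [if_pos (Finset.mem_range.1 hc), Finset.sum_mul]
          exact Finset.sum_congr rfl fun i _ => by ring
      obtain ⟨j, hj, hxj⟩ := hx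
      apply hxj
      have h4 : x j = ∑ c ∈ range D, ent W j c * y c := by
        have h5 : ∀ c ∈ range D, ent W j c * y c = ∑ i ∈ range D, x i * (ent U i c * ent W j c) := by
          intro c hc
          rw [hy]
          simp only
          rw [if_pos (Finset.mem_range.1 hc), Finset.mul_sum]
          exact Finset.sum_congr rfl fun i _ => by ring
        rw [Finset.sum_congr rfl h5, Finset.sum_comm]
        have h6 : ∀ i ∈ range D, ∑ c ∈ range D, x i * (ent U i c * ent W j c) =
            if i = j then x j else 0 := by
          intro i hi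
          rw [← Finset.mul_sum, hU.inv i (Finset.mem_range.1 hi) j hj]
          by_cases h7 : i = j
          · rw [if_pos h7, if_pos h7, h7, mul_one]
          · rw [if_neg h7, if_neg h7, mul_zero]
        rw [Finset.sum_congr rfl h6, Finset.sum_ite_eq' (range D) j, if_pos (Finset.mem_range.2 hj)]
      rw [h4]
      exact Finset.sum_eq_zero fun c _ => by rw [hy0 c, mul_zero]
  exact ⟨hm, hsymm, hint, hpd, hPDF D _ (fun i _ j _ => hsymm i j) hpd⟩

end Pool.HMS
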